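import Mathlib
import Pool.Agent.H391.AE.S

set_option autoImplicit false

open Finset
open scoped InnerProductSpace

namespace H391.AE.P_idx

open Classical in
theorem main' (hq : S_q) : S_idx := by
  intro n R hR
  obtain ⟨B, hBR, hBspan, hBli⟩ := exists_linearIndependent ℝ (R : Set (V n))
  have hBfin : B.Finite := R.finite_toSet.subset hBR
  have : Fintype ↥B := hBfin.fintype
  have hB0 : ∀ i : ↥B, (inner ℝ (i : V n) (i : V n) : ℝ) ≠ 0 := by
    intro i h
    rw [inner_self_eq_zero] at h
    exact hR.ne0 (h ▸ hBR i.2)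
  -- the coroots of the basis
  let b : ↥B → V n := fun i => (2 / (inner ℝ (i : V n) (i : V n) : ℝ)) • (i : V n)
  have hbc : ∀ i : ↥B, b i ∈ corootLattice R := fun i =>
    AddSubgroup.subset_closure ⟨i, hBR i.2, rfl⟩
  have hbw : ∀ (a : V n), IsWt R a → ∀ i : ↥B, ∃ z : ℤ, (inner ℝ (b i) a : ℝ) = z := by
    intro a ha i
    obtain ⟨z, hz⟩ := ha i (hBR i.2)
    refine ⟨z, ?_⟩
    show (inner ℝ ((2 / (inner ℝ (i : V n) (i : V n) : ℝ)) • (i : V n)) a : ℝ) = z
    rw [inner_smul_left, RCLike.conj_to_real, div_mul_eq_mul_div, div_eq_iff (hB0 i)]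
    exact hz
  have hbwt : ∀ i : ↥B, IsWt R (b i) := by
    intro i α hα
    obtain ⟨q, _, _, hq3⟩ := hq n R hR i (hBR i.2)
    obtain ⟨z, hz⟩ := hR.int α hα i (hBR i.2)
    refine ⟨q * z, ?_⟩
    show 2 * (inner ℝ α ((2 / (inner ℝ (i : V n) (i : V n) : ℝ)) • (i : V n)) : ℝ) = _
    have e : 2 / (inner ℝ (i : V n) (i : V n) : ℝ) = q := by
      rw [div_eq_iff (hB0 i)]
      exact hq3.symm
    rw [e, inner_smul_right]
    push_cast
    calc 2 * ((q : ℝ) * (inner ℝ α (i : V n) : ℝ)) = q * (2 * (inner ℝ α (i : V n) : ℝ)) := by ring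
      _ = q * (z * (inner ℝ α α : ℝ)) := by rw [hz]
      _ = _ := by ring
  have hinj : ∀ x : V n, (∀ i : ↥B, (inner ℝ (b i) x : ℝ) = 0) → x = 0 := by
    intro x hx
    have h1 : ∀ y ∈ Submodule.span ℝ B, (inner ℝ y x : ℝ) = 0 := by
      intro y hy
      refine Submodule.span_induction (p := fun y _ => (inner ℝ y x : ℝ) = 0) ?_ ?_ ?_ ?_ hy
      · intro y hy
        have h2 := hx ⟨y, hy⟩
        have h3 : (inner ℝ ((2 / (inner ℝ y y : ℝ)) • y) x : ℝ) = 0 := h2
        rw [inner_smul_left, RCLike.conj_to_real] at h3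
        rcases mul_eq_zero.1 h3 with h4 | h4
        · exfalso
          have h5 := hB0 ⟨y, hy⟩
          exact (div_ne_zero two_ne_zero h5) h4
        · exact h4
      · exact inner_zero_left x
      · intro y z _ _ h1 h2
        rw [inner_add_left, h1, h2, add_zero]
      · intro c y _ h1
        rw [inner_smul_left, h1, mul_zero]
    have h2 : x ∈ Submodule.span ℝ B := by
      rw [hBspan, hR.span_top]
      exact Submodule.mem_top
    exact inner_self_eq_zero.1 (h1 x h2)
  have hli : ∀ c : ↥B → ℝ, ∑ i, c i • b i = 0 → ∀ i, c i = 0 := by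
    intro c hc i
    have h1 : ∑ i : ↥B, (c i * (2 / (inner ℝ (i : V n) (i : V n) : ℝ))) • (i : V n) = 0 := by
      rw [← hc]
      refine Finset.sum_congr rfl fun i _ => ?_
      rw [mul_smul]
    have h2 := Fintype.linearIndependent_iff.1 hBli _ h1 i
    rcases mul_eq_zero.1 h2 with h3 | h3
    · exact h3
    · exact absurd h3 (div_ne_zero two_ne_zero (hB0 i))
  -- the Gram matrix
  choose G hG using fun (i j : ↥B) => hbw (b j) (hbwt j) i
  let M : Matrix ↥B ↥B ℤ := Matrix.of G
  have hdet : M.det ≠ 0 := by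
    intro h
    obtain ⟨v, hv0, hv⟩ := Matrix.exists_mulVec_eq_zero_iff.2 h
    apply hv0
    have h1 : ∑ j, (v j : ℝ) • b j = 0 := by
      apply hinj
      intro i
      rw [inner_sum]
      have h2 := congrFun hv i
      have h3 : ((∑ j, M i j * v j : ℤ) : ℝ) = 0 := by
        rw [show ∑ j, M i j * v j = 0 from h2]
        norm_num
      rw [← h3]
      push_cast
      refine Finset.sum_congr rfl fun j _ => ?_
      rw [inner_smul_right, hG, mul_comm]
      rfl
    funext j
    have h2 := hli _ h1 j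
    exact_mod_cast h2
  have hexp : ∀ x : V n, IsWt R x → M.det • x ∈ corootLattice R := by
    intro x hx
    choose z hz using hbw x hx
    let y : ↥B → ℤ := M.adjugate.mulVec z
    have hy : M.mulVec y = M.det • z := by
      show M.mulVec (M.adjugate.mulVec z) = _
      rw [Matrix.mulVec_mulVec, Matrix.mul_adjugate, Matrix.smul_mulVec, Matrix.one_mulVec]
    have h1 : M.det • x = ∑ j, y j • b j := by
      rw [← sub_eq_zero]
      apply hinj
      intro i
      rw [inner_sub_right, inner_sum]
      have h2 := congrFun hy i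
      have h3 : ((∑ j, M i j * y j : ℤ) : ℝ) = ((M.det * z i : ℤ) : ℝ) := by
        exact congrArg _ h2
      have h4 : ∑ j, (inner ℝ (b i) (y j • b j) : ℝ) = ((∑ j, M i j * y j : ℤ) : ℝ) := by
        push_cast
        refine Finset.sum_congr rfl fun j _ => ?_
        rw [← Int.cast_smul_eq_zsmul ℝ, inner_smul_right, hG, mul_comm]
        rfl
      rw [h4, h3, ← Int.cast_smul_eq_zsmul ℝ, inner_smul_right, hz]
      push_cast
      ring
    rw [h1]
    exact AddSubgroup.sum_mem _ fun j _ => AddSubgroup.zsmul_mem _ (hbc j) _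
  -- the weight lattice is finitely generated
  let ψ : ↥(wtLattice R) →+ (↥B → ℤ) :=
    { toFun := fun x i => ⌊(inner ℝ (b i) (x : V n) : ℝ)⌋
      map_zero' := by
        funext i
        simp
      map_add' := by
        intro x y
        funext i
        obtain ⟨z, hz⟩ := hbw x x.2 i
        show ⌊(inner ℝ (b i) ((x : V n) + (y : V n)) : ℝ)⌋ = _
        rw [inner_add_right, hz, Int.floor_intCast_add]
        simp [hz] }
  have hψ : Function.Injective ψ := by
    rw [injective_iff_map_eq_zero]
    intro x hx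
    apply Subtype.ext
    apply hinj
    intro i
    obtain ⟨z, hz⟩ := hbw x x.2 i
    have h1 : ⌊(inner ℝ (b i) (x : V n) : ℝ)⌋ = 0 := congrFun hx i
    rw [hz, Int.floor_intCast] at h1
    rw [hz, h1, Int.cast_zero]
  have hfin : Module.Finite ℤ ↥(wtLattice R) :=
    Module.Finite.of_injective ψ.toIntLinearMap hψ
  -- the quotient
  unfold idx
  have hquot : Finite (↥(wtLattice R) ⧸ (corootLattice R).addSubgroupOf (wtLattice R)) := by
    have : AddGroup.FG ↥(wtLattice R) := Module.Finite.iff_addGroup_fg.1 hfin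
    have : AddGroup.FG (↥(wtLattice R) ⧸ (corootLattice R).addSubgroupOf (wtLattice R)) :=
      inferInstance
    have : Module.Finite ℤ (↥(wtLattice R) ⧸ (corootLattice R).addSubgroupOf (wtLattice R)) :=
      Module.Finite.iff_addGroup_fg.2 inferInstance
    apply Module.finite_of_fg_torsion
    intro x
    induction x using QuotientAddGroup.induction_on with
    | H x =>
      refine ⟨⟨M.det, mem_nonZeroDivisors_of_ne_zero hdet⟩, ?_⟩
      show M.det • ((x : ↥(wtLattice R)) :
        ↥(wtLattice R) ⧸ (corootLattice R).addSubgroupOf (wtLattice R)) = 0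
      rw [← QuotientAddGroup.mk_zsmul, QuotientAddGroup.eq_zero_iff, AddSubgroup.mem_addSubgroupOf]
      exact hexp x x.2
  have h1 : (corootLattice R).relIndex (wtLattice R) ≠ 0 := by
    show ((corootLattice R).addSubgroupOf (wtLattice R)).index ≠ 0
    exact AddSubgroup.index_ne_zero_of_finite
  exact Nat.pos_of_ne_zero h1

theorem main : S_W → S_q → S_idx := fun _ => main'

end H391.AE.P_idx
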